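import Pool.Agent.W275.UB.Den

/-! UB-THETA (project of helper275, MP_13bc7b_nt). -/

set_option autoImplicit false

namespace Pool.Agent.W925.UB.Theta

open MvPolynomial Filter Topology Pool.Agent.W275.UB

theorem nebot (p : ℕ) [Fact p.Prime] (x : ℤ_[p]) : NeBot (𝓝[≠] x) := by
  have h1 : Tendsto (fun n : ℕ => x + (p : ℤ_[p]) ^ n) atTop (𝓝[≠] x) := by
    refine tendsto_nhdsWithin_iff.2 ⟨?_, Eventually.of_forall fun n => ?_⟩
    · have h2 : Tendsto (fun n : ℕ => (p : ℤ_[p]) ^ n) atTop (𝓝 0) :=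
        tendsto_pow_atTop_nhds_zero_of_norm_lt_one (by
          rw [PadicInt.norm_p]
          exact inv_lt_one_of_one_lt₀ (by exact_mod_cast (Fact.out : p.Prime).one_lt))
      simpa using h2.const_add x
    · intro h
      have h3 : x + (p : ℤ_[p]) ^ n = x := h
      have h4 : (p : ℤ_[p]) ^ n = 0 := by simpa using h3
      exact pow_ne_zero n (by exact_mod_cast (Fact.out : p.Prime).ne_zero) h4
  exact h1.neBot

theorem main : S_theta := by
  intro p _ ι _ a
  classical
  have hmap : ∀ (θ : ι → ℤ_[p]) (c : MvPolynomial ι ℤ),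
      aeval θ c = eval θ (MvPolynomial.map (Int.castRingHom ℤ_[p]) c) := by
    intro θ c
    rw [aeval_def, eval₂_eq_eval_map]
    congr 2
  have hopen : ∀ c : {c : MvPolynomial ι ℤ // c ≠ 0},
      IsOpen {θ : ι → ℤ_[p] | aeval θ c.1 ≠ 0} := by
    intro c
    simp only [hmap]
    exact isOpen_ne_fun (MvPolynomial.continuous_eval _) continuous_const
  have hdense : ∀ c : {c : MvPolynomial ι ℤ // c ≠ 0},
      Dense {θ : ι → ℤ_[p] | aeval θ c.1 ≠ 0} := by
    intro c
    rw [dense_iff_inter_open]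
    rintro W hW ⟨θ₀, hθ₀⟩
    obtain ⟨u, hu, hsub⟩ := isOpen_pi_iff'.1 hW θ₀ hθ₀
    have hinf : ∀ i, (u i).Infinite := by
      intro i
      haveI := nebot p (θ₀ i)
      exact infinite_of_mem_nhds (θ₀ i) ((hu i).1.mem_nhds (hu i).2)
    by_contra hcon
    apply c.2
    have h1 : MvPolynomial.map (Int.castRingHom ℤ_[p]) c.1 = 0 := by
      refine MvPolynomial.funext_set u hinf (fun x hx => ?_)
      rw [map_zero]
      by_contra h2
      exact hcon ⟨x, hsub hx, by rw [Set.mem_setOf_eq, hmap]; exact h2⟩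
    have h3 := MvPolynomial.map_injective (σ := ι) (Int.castRingHom ℤ_[p])
      (RingHom.injective_int _)
    exact h3 (by rw [h1, map_zero])
  have : Countable (MvPolynomial ι ℤ) := by
    rw [← Cardinal.mk_le_aleph0_iff]
    refine MvPolynomial.cardinalMk_le_max.trans ?_
    exact sup_le (sup_le Cardinal.mk_le_aleph0 Cardinal.mk_le_aleph0) le_rfl
  have hD := dense_iInter_of_isOpen hopen hdense
  have hO : IsOpen {θ : ι → ℤ_[p] | ∀ i, ‖θ i - (a i : ℤ_[p])‖ < 1} := by
    simp only [Set.setOf_forall]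
    exact isOpen_iInter_of_finite fun i => isOpen_lt (by fun_prop) continuous_const
  obtain ⟨θ, hθ1, hθ2⟩ := hD.inter_open_nonempty _ hO ⟨fun i => (a i : ℤ_[p]), by simp⟩
  refine ⟨θ, fun i => ?_, fun c hc => ?_⟩
  · have := hθ1 i
    rwa [PadicInt.norm_lt_one_iff_dvd] at this
  · have := Set.mem_iInter.1 hθ2 ⟨c, hc⟩
    exact this

end Pool.Agent.W925.UB.Theta
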