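import Pool.Agent.W275.UB.Den

/-! UB-DENSP (project of helper275, MP_13bc7b_nt). -/

set_option autoImplicit false

namespace Pool.Agent.W925.UB.Densp

open MvPolynomial Pool.Agent.W275.UB

/-- residue classes in an interval -/
theorem card_class (p : ℕ) [Fact p.Prime] (H : ℕ) (z : ZMod p) :
    ((Finset.Icc (-(H : ℤ)) H).filter (fun x : ℤ => (x : ZMod p) = z)).card ≤ 2 * H / p + 1 := by
  classical
  have hp : (0 : ℤ) < p := by exact_mod_cast (Fact.out : p.Prime).pos
  have h := Finset.card_le_card_of_injOn (s := (Finset.Icc (-(H : ℤ)) H).filter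
    (fun x : ℤ => (x : ZMod p) = z)) (t := Finset.range (2 * H / p + 1))
    (fun x : ℤ => ((x + H) / p).toNat) (by
      intro x hx
      simp only [Finset.coe_filter, Finset.mem_Icc, Set.mem_setOf_eq] at hx
      simp only [Finset.coe_range, Set.mem_Iio]
      have h1 : (x + H) / p ≤ 2 * H / p := Int.ediv_le_ediv hp (by linarith [hx.1.2])
      have h2 : 0 ≤ (x + H) / p := Int.ediv_nonneg (by linarith [hx.1.1]) hp.le
      have h3 : ((2 * H / p : ℕ) : ℤ) = 2 * H / p := by push_cast; rfl
      omega) (by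
      intro x hx y hy hxy
      simp only [Finset.coe_filter, Finset.mem_Icc, Set.mem_setOf_eq] at hx hy
      have h2 : 0 ≤ (x + H) / p := Int.ediv_nonneg (by linarith [hx.1.1]) hp.le
      have h2' : 0 ≤ (y + H) / p := Int.ediv_nonneg (by linarith [hy.1.1]) hp.le
      have h3 : (x + H) / p = (y + H) / p := by
        simp only at hxy
        omega
      have h4 : (x : ZMod p) = (y : ZMod p) := hx.2.trans hy.2.symm
      have h5 : x ≡ y [ZMOD p] := (ZMod.intCast_eq_intCast_iff x y p).1 h4
      have h6 : (x + H) % p = (y + H) % p := h5.add_right H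
      have h7 := Int.mul_ediv_add_emod (x + H) p
      have h8 := Int.mul_ediv_add_emod (y + H) p
      rw [h3, h6, h8] at h7
      linarith)
  rwa [Finset.card_range] at h

/-- number of zeros over a finite prime field -/
theorem card_zeros (p : ℕ) [Fact p.Prime] (ι : Type) [Fintype ι] [DecidableEq ι]
    (c : MvPolynomial ι (ZMod p)) (hc : c ≠ 0) :
    (((Finset.univ : Finset (ι → ZMod p)).filter (fun z => eval z c = 0)).card : ℝ) ≤
      c.totalDegree / p * p ^ Fintype.card ι := by
  classical
  let e : ι ≃ Fin (Fintype.card ι) := Fintype.equivFin ι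
  have hc' : rename e c ≠ 0 := fun h => hc (rename_injective e e.injective (by rw [h, map_zero]))
  have h1 := schwartz_zippel_totalDegree hc' (Finset.univ : Finset (ZMod p))
  rw [Finset.card_univ, ZMod.card] at h1
  have h2 : ((Finset.univ : Finset (ι → ZMod p)).filter (fun z => eval z c = 0)).card =
      ((Fintype.piFinset fun _ : Fin (Fintype.card ι) => (Finset.univ : Finset (ZMod p))).filter
        (fun f => eval f (rename e c) = 0)).card := by
    refine Finset.card_bij' (fun z _ => z ∘ e.symm) (fun f _ => f ∘ e) ?_ ?_ ?_ ?_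
    · intro z hz
      simp only [Finset.mem_filter, Finset.mem_univ, true_and, Fintype.mem_piFinset,
        implies_true] at hz ⊢
      rw [eval_rename]
      have : (z ∘ e.symm) ∘ e = z := by funext i; simp
      rw [this]; exact hz
    · intro f hf
      simp only [Finset.mem_filter, Finset.mem_univ, true_and, Fintype.mem_piFinset,
        implies_true] at hf ⊢
      rw [eval_rename] at hf
      exact hf
    · intro z _; funext i; simp
    · intro f _; funext i; simp
  rw [← h2] at h1
  have hp : (0 : ℝ) < p := by exact_mod_cast (Fact.out : p.Prime).pos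
  have h3 : ((((Finset.univ : Finset (ι → ZMod p)).filter (fun z => eval z c = 0)).card : ℝ)) /
      (p : ℝ) ^ Fintype.card ι ≤ (rename e c).totalDegree / p := by
    have h1' := (NNRat.cast_le (K := ℝ)).2 h1
    push_cast at h1'
    exact h1'
  rw [div_le_iff₀ (by positivity)] at h3
  refine h3.trans ?_
  have h4 : ((rename e c).totalDegree : ℝ) ≤ c.totalDegree := by
    exact_mod_cast totalDegree_rename_le e c
  gcongr

theorem main : S_densp := by
  intro ι _ c hc ε hε
  classical
  obtain ⟨μ, hμ⟩ := MvPolynomial.ne_zero_iff.1 hc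
  obtain ⟨P₁, hP₁⟩ := exists_nat_gt ((c.totalDegree : ℝ) * 2 ^ Fintype.card ι / ε)
  refine ⟨P₁ + (coeff μ c).natAbs + 1, ?_⟩
  intro p hp hpP
  haveI : Fact p.Prime := ⟨hp⟩
  refine ⟨p, ?_⟩
  intro H hH
  have hp0 : (0 : ℝ) < p := by exact_mod_cast hp.pos
  -- reduction modulo p
  set cb : MvPolynomial ι (ZMod p) := MvPolynomial.map (Int.castRingHom (ZMod p)) c with hcb
  have hcb0 : cb ≠ 0 := by
    intro h
    have h1 : coeff μ cb = 0 := by rw [h, coeff_zero]
    rw [hcb, coeff_map] at h1
    have h2 : ((coeff μ c : ℤ) : ZMod p) = 0 := h1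
    rw [ZMod.intCast_zmod_eq_zero_iff_dvd] at h2
    have h3 : (p : ℤ) ≤ |coeff μ c| := Int.le_of_dvd (abs_pos.2 hμ) ((dvd_abs _ _).2 h2)
    rw [Int.abs_eq_natAbs] at h3
    omega
  have hev : ∀ v : ι → ℤ, (p : ℤ) ∣ eval v c ↔ eval (fun i => (v i : ZMod p)) cb = 0 := by
    intro v
    rw [← ZMod.intCast_zmod_eq_zero_iff_dvd]
    have : eval (fun i => (v i : ZMod p)) cb = ((eval v c : ℤ) : ZMod p) := by
      rw [hcb, eval_map]
      have h5 := MvPolynomial.eval₂_comp_left (Int.castRingHom (ZMod p)) (RingHom.id ℤ) v c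
      simp only [MvPolynomial.eval₂_id] at h5
      have h6 : (Int.castRingHom (ZMod p)) (eval v c) = ((eval v c : ℤ) : ZMod p) := rfl
      rw [← h6, h5]
      rfl
    rw [this]
  -- the finite set
  set B : Finset (ι → ℤ) := (Fintype.piFinset fun _ : ι => Finset.Icc (-(H : ℤ)) H).filter
    (fun v => (p : ℤ) ∣ eval v c) with hB
  have hBS : ({v | v ∈ {v : ι → ℤ | (p : ℤ) ∣ eval v c} ∧ ∀ i, |v i| ≤ (H : ℤ)} : Set (ι → ℤ)) =
      (B : Set (ι → ℤ)) := by
    ext v
    simp only [hB, Set.mem_setOf_eq, Finset.coe_filter, Fintype.mem_piFinset, Finset.mem_Icc,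
      abs_le]
    exact and_comm
  rw [hBS, Set.ncard_coe_finset]
  have hcount := Finset.card_le_mul_card_image_of_maps_to (s := B)
    (t := (Finset.univ : Finset (ι → ZMod p)).filter (fun z => eval z cb = 0))
    (f := fun v i => (v i : ZMod p)) (by
      intro v hv
      simp only [Finset.mem_filter, Finset.mem_univ, true_and]
      rw [hB, Finset.mem_filter] at hv
      exact (hev v).1 hv.2) ((2 * H / p + 1) ^ Fintype.card ι) (by
      intro z _
      have hsub : B.filter (fun v => (fun i => (v i : ZMod p)) = z) ⊆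
          Fintype.piFinset fun i : ι => (Finset.Icc (-(H : ℤ)) H).filter
            (fun x : ℤ => (x : ZMod p) = z i) := by
        intro v hv
        rw [Finset.mem_filter, hB, Finset.mem_filter, Fintype.mem_piFinset] at hv
        rw [Fintype.mem_piFinset]
        intro i
        rw [Finset.mem_filter]
        exact ⟨hv.1.1 i, congrFun hv.2 i⟩
      refine (Finset.card_le_card hsub).trans ?_
      rw [Fintype.card_piFinset]
      refine (Finset.prod_le_pow_card _ _ _ fun i _ => card_class p H (z i)).trans ?_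
      rw [Finset.card_univ])
  have hZ := card_zeros p ι cb hcb0
  have hdeg : (cb.totalDegree : ℝ) ≤ c.totalDegree := by
    have : cb.totalDegree ≤ c.totalDegree := by
      unfold MvPolynomial.totalDegree
      exact Finset.sup_mono (support_map_subset _ c)
    exact_mod_cast this
  have hK : ((2 * H / p + 1 : ℕ) : ℝ) * p ≤ 2 * (2 * H + 1) := by
    have h1 : (2 * H / p + 1) * p ≤ 2 * (2 * H + 1) := by
      have := Nat.div_mul_le_self (2 * H) p
      nlinarith
    exact_mod_cast h1
  have hPp : (P₁ : ℝ) ≤ p := by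
    have : P₁ ≤ p := by omega
    exact_mod_cast this
  have hD : (c.totalDegree : ℝ) / p * 2 ^ Fintype.card ι ≤ ε := by
    rw [div_mul_eq_mul_div, div_le_iff₀ hp0]
    rw [div_lt_iff₀ hε] at hP₁
    nlinarith
  calc (B.card : ℝ) ≤ ((2 * H / p + 1 : ℕ) : ℝ) ^ Fintype.card ι *
        ((Finset.univ : Finset (ι → ZMod p)).filter (fun z => eval z cb = 0)).card := by
        exact_mod_cast hcount
    _ ≤ ((2 * H / p + 1 : ℕ) : ℝ) ^ Fintype.card ι *
        (cb.totalDegree / p * p ^ Fintype.card ι) := by gcongr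
    _ = cb.totalDegree / p * (((2 * H / p + 1 : ℕ) : ℝ) * p) ^ Fintype.card ι := by
        rw [mul_pow]; ring
    _ ≤ c.totalDegree / p * (2 * (2 * H + 1)) ^ Fintype.card ι := by gcongr
    _ = (c.totalDegree / p * 2 ^ Fintype.card ι) * (2 * H + 1) ^ Fintype.card ι := by
        rw [mul_pow]; ring
    _ ≤ ε * (2 * H + 1) ^ Fintype.card ι := by gcongr

end Pool.Agent.W925.UB.Densp
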